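import Pool.Agent.Helper73.DC.St1

set_option autoImplicit false

/-! Modules CB and CS of project DC: base functions, successor and letters are computed by counter programs. -/

namespace Pool.Agent.Helper8.DC

open Pool.Agent.Helper73.DC Finset

variable {α : Type} [Fintype α]

/-- all registers stay bounded -/
theorem Run_le (w : List α) (B : ℕ) (P : Prog) (s t : ℕ → ℕ) (h : Run w B P s t)
    (hs : ∀ j, s j ≤ B) : ∀ j, t j ≤ B := by
  induction h with
  | inc i s h =>
    intro j
    rw [Function.update_apply]
    split_ifs
    · exact h
    · exact hs j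
  | dec i s =>
    intro j
    rw [Function.update_apply]
    split_ifs
    · exact (Nat.sub_le _ _).trans (hs i)
    · exact hs j
  | seq P R s t u _ _ ih1 ih2 => exact ih2 (ih1 hs)
  | loop0 i P s h => exact hs
  | loopS i P s t u _ _ _ ih1 ih2 => exact ih2 (ih1 hs)
  | letr i s h =>
    intro j
    rw [Function.update_apply]
    split_ifs
    · exact h
    · exact hs j
  | len i s h =>
    intro j
    rw [Function.update_apply]
    split_ifs
    · exact h
    · exact hs j

theorem copy1 (w : List α) (B r o b : ℕ) (hro : r ≠ o) (hrb : r ≠ b) (hob : o ≠ b) (n : ℕ) :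
    ∀ s : ℕ → ℕ, s r = n → s o + n ≤ B → s b + n ≤ B →
    Run w B (Prog.loop r (Prog.seq (Prog.dec r) (Prog.seq (Prog.inc o) (Prog.inc b)))) s
      (Function.update (Function.update (Function.update s r 0) o (s o + n)) b (s b + n)) := by
  induction n with
  | zero =>
    intro s hs h1 h2
    have e : (Function.update (Function.update (Function.update s r 0) o (s o + 0)) b (s b + 0)) = s := by
      funext j
      simp only [Function.update_apply]
      split_ifs with h3 h4 h5
      · rw [h3, add_zero]
      · rw [h4, add_zero]
      · rw [h5, hs]
      · rfl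
    rw [e]
    exact Run.loop0 r _ s hs
  | succ n ih =>
    intro s hs h1 h2
    set s1 := Function.update s r (s r - 1) with hs1
    set s2 := Function.update s1 o (s1 o + 1) with hs2
    set s3 := Function.update s2 b (s2 b + 1) with hs3
    have e1 : s1 o = s o := by rw [hs1, Function.update_of_ne hro.symm]
    have e2 : s2 b = s b := by
      rw [hs2, Function.update_of_ne hob.symm, hs1, Function.update_of_ne hrb.symm]
    have e3 : s3 r = n := by
      rw [hs3, Function.update_of_ne hrb, hs2, Function.update_of_ne hro, hs1,
        Function.update_self, hs]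
      rfl
    have e4 : s3 o = s o + 1 := by
      rw [hs3, Function.update_of_ne hob, hs2, Function.update_self, e1]
    have e5 : s3 b = s b + 1 := by
      rw [hs3, Function.update_self, e2]
    have r1 : Run w B (Prog.seq (Prog.dec r) (Prog.seq (Prog.inc o) (Prog.inc b))) s s3 := by
      refine Run.seq _ _ s s1 s3 (Run.dec r s) (Run.seq _ _ s1 s2 s3 (Run.inc o s1 ?_) (Run.inc b s2 ?_))
      · rw [e1]; omega
      · rw [e2]; omega
    have r2 := ih s3 e3 (by rw [e4]; omega) (by rw [e5]; omega)
    have e : Function.update (Function.update (Function.update s3 r 0) o (s3 o + n)) b (s3 b + n) =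
        (Function.update (Function.update (Function.update s r 0) o (s o + (n + 1))) b
          (s b + (n + 1))) := by
      rw [e4, e5]
      funext j
      simp only [Function.update_apply]
      split_ifs with h3 h4 h5
      · omega
      · omega
      · rfl
      · rw [hs3, Function.update_of_ne h3, hs2, Function.update_of_ne h4, hs1,
          Function.update_of_ne h5]
    rw [e] at r2
    exact Run.loopS r _ s s3 _ (by omega) r1 r2

theorem copy2 (w : List α) (B r b : ℕ) (hrb : r ≠ b) (n : ℕ) :
    ∀ s : ℕ → ℕ, s b = n → s r + n ≤ B →
    Run w B (Prog.loop b (Prog.seq (Prog.dec b) (Prog.inc r))) s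
      (Function.update (Function.update s b 0) r (s r + n)) := by
  induction n with
  | zero =>
    intro s hs h1
    have e : (Function.update (Function.update s b 0) r (s r + 0)) = s := by
      funext j
      simp only [Function.update_apply]
      split_ifs with h3 h4
      · rw [h3, add_zero]
      · rw [h4, hs]
      · rfl
    rw [e]
    exact Run.loop0 b _ s hs
  | succ n ih =>
    intro s hs h1
    set s1 := Function.update s b (s b - 1) with hs1
    set s2 := Function.update s1 r (s1 r + 1) with hs2
    have e1 : s1 r = s r := by rw [hs1, Function.update_of_ne hrb]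
    have e3 : s2 b = n := by
      rw [hs2, Function.update_of_ne hrb.symm, hs1, Function.update_self, hs]
      rfl
    have e4 : s2 r = s r + 1 := by
      rw [hs2, Function.update_self, e1]
    have r1 : Run w B (Prog.seq (Prog.dec b) (Prog.inc r)) s s2 := by
      refine Run.seq _ _ s s1 s2 (Run.dec b s) (Run.inc r s1 ?_)
      rw [e1]; omega
    have r2 := ih s2 e3 (by rw [e4]; omega)
    have e : Function.update (Function.update s2 b 0) r (s2 r + n) =
        (Function.update (Function.update s b 0) r (s r + (n + 1))) := by
      rw [e4]
      funext j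
      simp only [Function.update_apply]
      split_ifs with h3 h4
      · omega
      · rfl
      · rw [hs2, Function.update_of_ne h3, hs1, Function.update_of_ne h4]
    rw [e] at r2
    exact Run.loopS b _ s s2 _ (by omega) r1 r2

theorem hCB : StCB := by
  intro α _
  refine ⟨?_, ?_, ?_⟩
  · refine ⟨0, 1, fun _ _ _ _ => rfl, ?_⟩
    intro ρ out base _ hob _
    refine ⟨Prog.seq (Prog.inc out) (Prog.dec out), ?_⟩
    intro w s B hs0 _ _ hB
    rw [pow_one] at hB
    have h1 : Run w B (Prog.inc out) s (Function.update s out (s out + 1)) := Run.inc out s (by omega)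
    have h2 := Run.dec (w := w) (B := B) out (Function.update s out (s out + 1))
    rw [Function.update_self, Function.update_idem] at h2
    have h3 := Run.seq _ _ _ _ _ h1 h2
    rw [Nat.add_sub_cancel, hs0] at h3
    exact h3
  · intro i
    refine ⟨i + 1, 1, fun w v v' h => h i (Nat.lt_succ_self i), ?_⟩
    intro ρ out base hρ hob hne
    have hrb : ρ i < base := hρ i (Nat.lt_succ_self i)
    have hro : ρ i ≠ out := hne i (Nat.lt_succ_self i)
    refine ⟨Prog.seq (Prog.loop (ρ i) (Prog.seq (Prog.dec (ρ i)) (Prog.seq (Prog.inc out) (Prog.inc base))))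
      (Prog.loop base (Prog.seq (Prog.dec base) (Prog.inc (ρ i)))), ?_⟩
    intro w s B hs0 hb hB _
    have hb0 := hb base le_rfl
    have h1 := copy1 w B (ρ i) out base hro hrb.ne hob.ne (s (ρ i)) s rfl
      (by rw [hs0, zero_add]; exact hB _) (by rw [hb0, zero_add]; exact hB _)
    set t := Function.update (Function.update (Function.update s (ρ i) 0) out (s out + s (ρ i))) base
      (s base + s (ρ i)) with ht
    have t1 : t base = s (ρ i) := by rw [ht, Function.update_self, hb0, zero_add]
    have t2 : t (ρ i) = 0 := by
      rw [ht, Function.update_of_ne hrb.ne, Function.update_of_ne hro, Function.update_self]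
    have h2 := copy2 w B (ρ i) base hrb.ne (s (ρ i)) t t1 (by rw [t2, zero_add]; exact hB _)
    have h3 := Run.seq _ _ _ _ _ h1 h2
    have e : Function.update (Function.update t base 0) (ρ i) (t (ρ i) + s (ρ i)) =
        Function.update s out (s (ρ i)) := by
      rw [t2, zero_add]
      funext j
      rw [ht]
      simp only [Function.update_apply]
      split_ifs with g1 g2 g3 g4 g5
      · exact absurd (g1.symm.trans g2) hro
      · rw [g1]
      · exact absurd (g3.symm.trans g4) hob.ne'
      · rw [g3, hb0]
      · rw [hs0, zero_add]
      · rfl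
    rw [e] at h3
    exact h3
  · refine ⟨0, 1, fun _ _ _ _ => rfl, ?_⟩
    intro ρ out base _ hob _
    refine ⟨Prog.len out, ?_⟩
    intro w s B hs0 _ _ hB
    rw [pow_one] at hB
    have h := Run.len (w := w) (B := B) out s (by omega)
    rw [hs0, zero_add] at h
    exact h

end Pool.Agent.Helper8.DC
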