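import Pool.Agent.Helper8.DC.M_CB

set_option autoImplicit false

/-! Module CS of project DC. -/

namespace Pool.Agent.Helper8.DC

open Pool.Agent.Helper73.DC Finset

variable {α : Type} [Fintype α]

/-- value bound for computable functions (`K`, `c` as in `Comp`) -/
theorem val_bound (F : VF α) (K c : ℕ) (hS : Supp K F)
    (h : ∀ (ρ : ℕ → ℕ) (out base : ℕ), (∀ i < K, ρ i < base) → out < base → (∀ i < K, ρ i ≠ out) →
      ∃ P : Prog, ∀ (w : List α) (s : ℕ → ℕ) (B : ℕ), s out = 0 → (∀ j, base ≤ j → s j = 0) →
        (∀ j, s j ≤ B) → (w.length + sumK K (fun i => s (ρ i)) + 2) ^ c ≤ B →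
        Run w B P s (Function.update s out (F w (fun i => s (ρ i)))))
    (w : List α) (v : ℕ → ℕ) : F w v ≤ (w.length + sumK K v + 2) ^ (c + 1) := by
  obtain ⟨P, hP⟩ := h (fun i => i) K (K + 1) (fun i hi => by omega) (by omega) (fun i hi => by omega)
  set s : ℕ → ℕ := fun j => if j < K then v j else 0 with hs
  have e1 : sumK K (fun i => s i) = sumK K v := by
    unfold sumK
    refine Finset.sum_congr rfl fun i hi => ?_
    simp only [hs, if_pos (Finset.mem_range.mp hi)]
  have hX : 1 ≤ w.length + sumK K v + 2 := by omega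
  have hs' : ∀ j, s j ≤ w.length + sumK K v + 2 := by
    intro j
    simp only [hs]
    split_ifs with hj
    · have : v j ≤ sumK K v := by
        unfold sumK
        exact Finset.single_le_sum (f := v) (fun _ _ => Nat.zero_le _) (Finset.mem_range.mpr hj)
      omega
    · exact Nat.zero_le _
  have hle : w.length + sumK K v + 2 ≤ (w.length + sumK K v + 2) ^ (c + 1) := by
    exact Nat.le_self_pow (by omega) _
  have hr := hP w s ((w.length + sumK K v + 2) ^ (c + 1)) (by simp [hs])
    (fun j hj => by simp only [hs]; rw [if_neg (by omega)]) (fun j => (hs' j).trans hle)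
    (by rw [e1]; exact Nat.pow_le_pow_right hX (by omega))
  have h1 := Run_le w _ P s _ hr (fun j => (hs' j).trans hle) K
  rw [Function.update_self] at h1
  have e2 : F w (fun i => s i) = F w v := hS w _ _ (fun i hi => by simp only [hs, if_pos hi])
  rw [e2] at h1
  exact h1

theorem hCS : StCS := by
  intro α _ F hF
  obtain ⟨K, c, hS, h⟩ := hF
  have hv := val_bound F K c hS h
  refine ⟨⟨K, c + 2, ?_, ?_⟩, ⟨K, c + 1 + Fintype.card α, ?_, ?_⟩⟩
  · intro w v v' hvv
    show F w v + 1 = F w v' + 1
    rw [hS w v v' hvv]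
  · intro ρ out base h1 h2 h3
    obtain ⟨P, hP⟩ := h ρ out base h1 h2 h3
    refine ⟨Prog.seq P (Prog.inc out), ?_⟩
    intro w s B hs0 hsb hsB hB
    set X := w.length + sumK K (fun i => s (ρ i)) + 2 with hX
    have hX2 : 2 ≤ X := by omega
    have g1 : X ^ c ≤ B := (Nat.pow_le_pow_right (by omega) (by omega)).trans hB
    have r1 := hP w s B hs0 hsb hsB g1
    have g2 : F w (fun i => s (ρ i)) ≤ X ^ (c + 1) := hv w _
    have g3 : X ^ (c + 1) + 1 ≤ X ^ (c + 2) := by
      have : X ^ (c + 2) = X ^ (c + 1) * X := by ring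
      rw [this]
      have g4 : 1 ≤ X ^ (c + 1) := Nat.one_le_pow _ _ (by omega)
      nlinarith
    have r2 := Run.inc (w := w) (B := B) out (Function.update s out (F w (fun i => s (ρ i))))
      (by rw [Function.update_self]; omega)
    rw [Function.update_self, Function.update_idem] at r2
    exact Run.seq _ _ _ _ _ r1 r2
  · intro w v v' hvv
    show lett w (F w v) = lett w (F w v')
    rw [hS w v v' hvv]
  · intro ρ out base h1 h2 h3
    obtain ⟨P, hP⟩ := h ρ out base h1 h2 h3
    refine ⟨Prog.seq P (Prog.letr out), ?_⟩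
    intro w s B hs0 hsb hsB hB
    set X := w.length + sumK K (fun i => s (ρ i)) + 2 with hX
    have hX2 : 2 ≤ X := by omega
    have g1 : X ^ c ≤ B := (Nat.pow_le_pow_right (by omega) (by omega)).trans hB
    have r1 := hP w s B hs0 hsb hsB g1
    have g2 : Fintype.card α ≤ X ^ (c + 1 + Fintype.card α) := by
      calc Fintype.card α ≤ 2 ^ Fintype.card α := Nat.lt_two_pow_self.le
        _ ≤ X ^ Fintype.card α := Nat.pow_le_pow_left hX2 _
        _ ≤ X ^ (c + 1 + Fintype.card α) := Nat.pow_le_pow_right (by omega) (by omega)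
    have g3 : ∀ x, lett w x ≤ Fintype.card α := by
      intro x
      unfold lett
      split
      · rename_i a _
        have : cd a < Fintype.card α := (Fintype.equivFin α a).isLt
        omega
      · exact Nat.zero_le _
    have r2 := Run.letr (w := w) (B := B) out (Function.update s out (F w (fun i => s (ρ i))))
      ((g3 _).trans (g2.trans hB))
    rw [Function.update_self, Function.update_idem] at r2
    exact Run.seq _ _ _ _ _ r1 r2

end Pool.Agent.Helper8.DC
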