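import Pool.Agent.Helper73.DC.St1

set_option autoImplicit false

/-! Modules FG1 and FG2 of project DC: flow graphs for single instructions. -/

namespace Pool.Agent.Helper8.DC

open Pool.Agent.Helper73.DC Finset

variable {α : Type}

theorem symAt_zero (w : List α) : symAt w 0 = Sym.lm := by
  simp [symAt]

theorem symAt_lt (w : List α) (p : ℕ) (h : p < w.length) : symAt w (p + 1) = Sym.ch w[p] := by
  unfold symAt
  rw [if_neg (by omega)]
  simp [h]

theorem symAt_ge (w : List α) (p : ℕ) (h : w.length ≤ p) : symAt w (p + 1) = Sym.rm := by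
  unfold symAt
  rw [if_neg (by omega)]
  simp [List.getElem?_eq_none h]

theorem symAt_ne_lm (w : List α) (p : ℕ) : symAt w (p + 1) ≠ Sym.lm := by
  rcases lt_or_ge p w.length with h | h
  · rw [symAt_lt w p h]; simp
  · rw [symAt_ge w p h]; simp

theorem upd_le {m : ℕ} {B : ℕ} {s : Fin m → ℕ} (hs : ∀ j, s j ≤ B) (i : Fin m) (x : ℕ) (hx : x ≤ B) :
    ∀ j, Function.update s i x j ≤ B := by
  intro j
  rw [Function.update_apply]
  split_ifs
  · exact hx
  · exact hs j

open Classical in
/-- labels of the graph for `len` -/
noncomputable def lenIns (α : Type) (m : ℕ) (i : Fin m) : Fin 5 → Ins α m (Option (Fin 5)) :=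
  fun l =>
    if l = 0 then Ins.mv Mv.R (some 1)
    else if l = 1 then Ins.rd (fun x => if x = Sym.rm then some 3 else some 2)
    else if l = 2 then Ins.inc i (some 0)
    else if l = 3 then Ins.mv Mv.L (some 4)
    else Ins.rd (fun x => if x = Sym.lm then none else some 3)

noncomputable def lenG (α : Type) (m : ℕ) (i : Fin m) : FG α m :=
  { Lab := Fin 5, fin := inferInstance, entry := 0, ins := lenIns α m i }

theorem len_back (m : ℕ) (i : Fin m) (w : List α) (B : ℕ) (s : Fin m → ℕ) (hs : ∀ j, s j ≤ B)
    (p : ℕ) : p ≤ w.length + 1 → Relation.ReflTransGen ((lenG α m i).Step w B)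
      { l := some (3 : Fin 5), pos := p, cnt := s } { l := none, pos := 0, cnt := s } := by
  induction p with
  | zero =>
    intro _
    have h1 : (lenG α m i).Step w B { l := some (3 : Fin 5), pos := 0, cnt := s }
        { l := some (4 : Fin 5), pos := 0, cnt := s } := by
      refine ⟨(3 : Fin 5), rfl, ?_, hs⟩
      simp [lenG, lenIns, Ins.apply, mvN]
    have h2 : (lenG α m i).Step w B { l := some (4 : Fin 5), pos := 0, cnt := s }
        { l := none, pos := 0, cnt := s } := by
      refine ⟨(4 : Fin 5), rfl, ?_, hs⟩
      simp [lenG, lenIns, Ins.apply, symAt_zero]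
    exact (Relation.ReflTransGen.single h1).tail h2
  | succ p ih =>
    intro hp
    have h1 : (lenG α m i).Step w B { l := some (3 : Fin 5), pos := p + 1, cnt := s }
        { l := some (4 : Fin 5), pos := p, cnt := s } := by
      refine ⟨(3 : Fin 5), rfl, ?_, hs⟩
      have : min p (w.length + 1) = p := by omega
      simp [lenG, lenIns, Ins.apply, mvN, this]
    by_cases hp0 : p = 0
    · subst hp0
      have h2 : (lenG α m i).Step w B { l := some (4 : Fin 5), pos := 0, cnt := s }
          { l := none, pos := 0, cnt := s } := by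
        refine ⟨(4 : Fin 5), rfl, ?_, hs⟩
        simp [lenG, lenIns, Ins.apply, symAt_zero]
      exact (Relation.ReflTransGen.single h1).tail h2
    · obtain ⟨k, rfl⟩ : ∃ k, p = k + 1 := ⟨p - 1, by omega⟩
      have h2 : (lenG α m i).Step w B { l := some (4 : Fin 5), pos := k + 1, cnt := s }
          { l := some (3 : Fin 5), pos := k + 1, cnt := s } := by
        refine ⟨(4 : Fin 5), rfl, ?_, hs⟩
        simp [lenG, lenIns, Ins.apply, symAt_ne_lm w k]
      exact ((Relation.ReflTransGen.single h1).tail h2).trans (ih (by omega))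

theorem len_fwd (m : ℕ) (i : Fin m) (w : List α) (B : ℕ) (k : ℕ) :
    ∀ (s : Fin m → ℕ) (p : ℕ), (∀ j, s j ≤ B) → p + k = w.length → s i + k ≤ B →
      Relation.ReflTransGen ((lenG α m i).Step w B)
      { l := some (0 : Fin 5), pos := p, cnt := s }
      { l := some (3 : Fin 5), pos := w.length + 1, cnt := Function.update s i (s i + k) } := by
  induction k with
  | zero =>
    intro s p hs hp _
    have hp' : p = w.length := by omega
    subst hp'
    have h1 : (lenG α m i).Step w B { l := some (0 : Fin 5), pos := w.length, cnt := s }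
        { l := some (1 : Fin 5), pos := w.length + 1, cnt := s } := by
      refine ⟨(0 : Fin 5), rfl, ?_, hs⟩
      simp [lenG, lenIns, Ins.apply, mvN]
    have h2 : (lenG α m i).Step w B { l := some (1 : Fin 5), pos := w.length + 1, cnt := s }
        { l := some (3 : Fin 5), pos := w.length + 1, cnt := s } := by
      refine ⟨(1 : Fin 5), rfl, ?_, hs⟩
      simp [lenG, lenIns, Ins.apply, symAt_ge w w.length le_rfl]
    rw [add_zero, Function.update_eq_self]
    exact (Relation.ReflTransGen.single h1).tail h2
  | succ k ih =>
    intro s p hs hp hB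
    have h1 : (lenG α m i).Step w B { l := some (0 : Fin 5), pos := p, cnt := s }
        { l := some (1 : Fin 5), pos := p + 1, cnt := s } := by
      refine ⟨(0 : Fin 5), rfl, ?_, hs⟩
      have : p ≤ w.length := by omega
      simp [lenG, lenIns, Ins.apply, mvN, this]
    have h2 : (lenG α m i).Step w B { l := some (1 : Fin 5), pos := p + 1, cnt := s }
        { l := some (2 : Fin 5), pos := p + 1, cnt := s } := by
      refine ⟨(1 : Fin 5), rfl, ?_, hs⟩
      simp [lenG, lenIns, Ins.apply, symAt_lt w p (by omega)]
    have hs' := upd_le hs i (s i + 1) (by omega)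
    have h3 : (lenG α m i).Step w B { l := some (2 : Fin 5), pos := p + 1, cnt := s }
        { l := some (0 : Fin 5), pos := p + 1, cnt := Function.update s i (s i + 1) } := by
      refine ⟨(2 : Fin 5), rfl, ?_, hs'⟩
      simp [lenG, lenIns, Ins.apply]
    have h4 := ih (Function.update s i (s i + 1)) (p + 1) hs' (by omega)
      (by rw [Function.update_self]; omega)
    rw [Function.update_self, Function.update_idem, add_assoc, add_comm 1 k] at h4
    exact (((Relation.ReflTransGen.single h1).tail h2).tail h3).trans h4

theorem hFG1 : StFG1 := by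
  intro α m i
  refine ⟨?_, ?_, ?_⟩
  · refine ⟨{ Lab := Unit, fin := inferInstance, entry := (), ins := fun _ => Ins.inc i none }, ?_⟩
    intro w B s hs hB
    apply Relation.ReflTransGen.single
    exact ⟨(), rfl, rfl, upd_le hs i _ hB⟩
  · refine ⟨{ Lab := Unit, fin := inferInstance, entry := (), ins := fun _ => Ins.dec i none none }, ?_⟩
    intro w B s hs
    apply Relation.ReflTransGen.single
    refine ⟨(), rfl, ?_, upd_le hs i _ ((Nat.sub_le _ _).trans (hs i))⟩
    simp [Ins.apply]
  · refine ⟨lenG α m i, ?_⟩
    intro w B s hs hB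
    have h1 := len_fwd m i w B w.length s 0 hs (by omega) hB
    have h2 := len_back (α := α) m i w B (Function.update s i (s i + w.length)) (upd_le hs i _ hB)
      (w.length + 1) le_rfl
    exact h1.trans h2

end Pool.Agent.Helper8.DC
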