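import Pool.Agent.Helper8.DC.M_FG1

set_option autoImplicit false

/-! Module FG2 of project DC: flow graph for `letr`. -/

namespace Pool.Agent.Helper8.DC

open Pool.Agent.Helper73.DC Finset

variable {α : Type} [Fintype α]

/-- labels: `inl 0` = A, `inl 1` = B, `inl 2` = D, `inl 3` = E, `inl 4` = E', `inr j`: `j + 1` increments -/
abbrev LLab (α : Type) [Fintype α] := Fin 5 ⊕ Fin (Fintype.card α)

/-- target after one of `j + 1` increments -/
def nxt (α : Type) [Fintype α] (j : Fin (Fintype.card α)) : LLab α :=
  if (j : ℕ) = 0 then Sum.inl 3 else Sum.inr ⟨(j : ℕ) - 1, by omega⟩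

open Classical in
noncomputable def letIns (α : Type) [Fintype α] (m : ℕ) (i : Fin m) : LLab α → Ins α m (Option (LLab α))
  | Sum.inr j => Ins.inc i (some (nxt α j))
  | Sum.inl l =>
    if l = 0 then Ins.mv Mv.R (some (Sum.inl 1))
    else if l = 1 then Ins.dec i (some (Sum.inl 2)) (some (Sum.inl 0))
    else if l = 2 then Ins.rd (fun x => match x with
      | Sym.ch a => some (Sum.inr (Fintype.equivFin α a))
      | _ => some (Sum.inl 3))
    else if l = 3 then Ins.rd (fun x => if x = Sym.lm then none else some (Sum.inl 4))
    else Ins.mv Mv.L (some (Sum.inl 3))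

noncomputable def letG (α : Type) [Fintype α] (m : ℕ) (i : Fin m) : FG α m :=
  { Lab := LLab α, fin := inferInstance, entry := Sum.inl 0, ins := letIns α m i }

theorem let_back (m : ℕ) (i : Fin m) (w : List α) (B : ℕ) (s : Fin m → ℕ) (hs : ∀ j, s j ≤ B)
    (p : ℕ) : p ≤ w.length + 1 → Relation.ReflTransGen ((letG α m i).Step w B)
      { l := some (Sum.inl 3 : LLab α), pos := p, cnt := s } { l := none, pos := 0, cnt := s } := by
  induction p with
  | zero =>
    intro _
    have h2 : (letG α m i).Step w B { l := some (Sum.inl 3 : LLab α), pos := 0, cnt := s }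
        { l := none, pos := 0, cnt := s } := by
      refine ⟨(Sum.inl 3 : LLab α), rfl, ?_, hs⟩
      simp [letG, letIns, Ins.apply, symAt_zero]
    exact Relation.ReflTransGen.single h2
  | succ p ih =>
    intro hp
    have h1 : (letG α m i).Step w B { l := some (Sum.inl 3 : LLab α), pos := p + 1, cnt := s }
        { l := some (Sum.inl 4 : LLab α), pos := p + 1, cnt := s } := by
      refine ⟨(Sum.inl 3 : LLab α), rfl, ?_, hs⟩
      simp [letG, letIns, Ins.apply, symAt_ne_lm w p]
    have h2 : (letG α m i).Step w B { l := some (Sum.inl 4 : LLab α), pos := p + 1, cnt := s }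
        { l := some (Sum.inl 3 : LLab α), pos := p, cnt := s } := by
      refine ⟨(Sum.inl 4 : LLab α), rfl, ?_, hs⟩
      have : min p (w.length + 1) = p := by omega
      simp [letG, letIns, Ins.apply, mvN, this]
    exact ((Relation.ReflTransGen.single h1).tail h2).trans (ih (by omega))

theorem let_fwd (m : ℕ) (i : Fin m) (w : List α) (B : ℕ) (x : ℕ) :
    ∀ (s : Fin m → ℕ) (p : ℕ), (∀ j, s j ≤ B) → s i = x →
      Relation.ReflTransGen ((letG α m i).Step w B)
      { l := some (Sum.inl 0 : LLab α), pos := p, cnt := s }
      { l := some (Sum.inl 2 : LLab α), pos := min (p + x + 1) (w.length + 1),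
        cnt := Function.update s i 0 } := by
  induction x with
  | zero =>
    intro s p hs hx
    have h1 : (letG α m i).Step w B { l := some (Sum.inl 0 : LLab α), pos := p, cnt := s }
        { l := some (Sum.inl 1 : LLab α), pos := min (p + 1) (w.length + 1), cnt := s } := by
      refine ⟨(Sum.inl 0 : LLab α), rfl, ?_, hs⟩
      simp [letG, letIns, Ins.apply, mvN]
    have h2 : (letG α m i).Step w B
        { l := some (Sum.inl 1 : LLab α), pos := min (p + 1) (w.length + 1), cnt := s }
        { l := some (Sum.inl 2 : LLab α), pos := min (p + 0 + 1) (w.length + 1),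
          cnt := Function.update s i 0 } := by
      refine ⟨(Sum.inl 1 : LLab α), rfl, ?_, upd_le hs i _ (Nat.zero_le _)⟩
      simp [letG, letIns, Ins.apply, hx]
    exact (Relation.ReflTransGen.single h1).tail h2
  | succ x ih =>
    intro s p hs hx
    have h1 : (letG α m i).Step w B { l := some (Sum.inl 0 : LLab α), pos := p, cnt := s }
        { l := some (Sum.inl 1 : LLab α), pos := min (p + 1) (w.length + 1), cnt := s } := by
      refine ⟨(Sum.inl 0 : LLab α), rfl, ?_, hs⟩
      simp [letG, letIns, Ins.apply, mvN]
    have hxB := hs i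
    have hs' := upd_le hs i x (by omega)
    have h2 : (letG α m i).Step w B
        { l := some (Sum.inl 1 : LLab α), pos := min (p + 1) (w.length + 1), cnt := s }
        { l := some (Sum.inl 0 : LLab α), pos := min (p + 1) (w.length + 1),
          cnt := Function.update s i x } := by
      refine ⟨(Sum.inl 1 : LLab α), rfl, ?_, hs'⟩
      simp [letG, letIns, Ins.apply, hx]
    have h3 := ih (Function.update s i x) (min (p + 1) (w.length + 1)) hs' (Function.update_self ..)
    rw [Function.update_idem] at h3
    have e : min (min (p + 1) (w.length + 1) + x + 1) (w.length + 1) =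
        min (p + (x + 1) + 1) (w.length + 1) := by omega
    rw [e] at h3
    exact ((Relation.ReflTransGen.single h1).tail h2).trans h3

theorem let_inc (m : ℕ) (i : Fin m) (w : List α) (B : ℕ) (p : ℕ) (k : ℕ) (hk : k < Fintype.card α) :
    ∀ (s : Fin m → ℕ), (∀ j, s j ≤ B) → s i + k + 1 ≤ B →
      Relation.ReflTransGen ((letG α m i).Step w B)
      { l := some (Sum.inr ⟨k, hk⟩ : LLab α), pos := p, cnt := s }
      { l := some (Sum.inl 3 : LLab α), pos := p, cnt := Function.update s i (s i + k + 1) } := by
  induction k with
  | zero =>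
    intro s hs hB
    have h2 : (letG α m i).Step w B { l := some (Sum.inr ⟨0, hk⟩ : LLab α), pos := p, cnt := s }
        { l := some (Sum.inl 3 : LLab α), pos := p, cnt := Function.update s i (s i + 0 + 1) } := by
      refine ⟨(Sum.inr ⟨0, hk⟩ : LLab α), rfl, ?_, upd_le hs i _ hB⟩
      simp [letG, letIns, Ins.apply, nxt]
    exact Relation.ReflTransGen.single h2
  | succ k ih =>
    intro s hs hB
    have hs' := upd_le hs i (s i + 1) (by omega)
    have h2 : (letG α m i).Step w B { l := some (Sum.inr ⟨k + 1, hk⟩ : LLab α), pos := p, cnt := s }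
        { l := some (Sum.inr ⟨k, by omega⟩ : LLab α), pos := p,
          cnt := Function.update s i (s i + 1) } := by
      refine ⟨(Sum.inr ⟨k + 1, hk⟩ : LLab α), rfl, ?_, hs'⟩
      simp [letG, letIns, Ins.apply, nxt]
    have h3 := ih (by omega) (Function.update s i (s i + 1)) hs' (by rw [Function.update_self]; omega)
    rw [Function.update_self, Function.update_idem] at h3
    have e : s i + 1 + k + 1 = s i + (k + 1) + 1 := by omega
    rw [e] at h3
    exact (Relation.ReflTransGen.single h2).trans h3

theorem hFG2 : StFG2 := by
  intro α _ m i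
  refine ⟨letG α m i, ?_⟩
  intro w B s hs hB
  have h1 := let_fwd m i w B (s i) s 0 hs rfl
  rw [zero_add] at h1
  have hs0 := upd_le hs i 0 (Nat.zero_le _)
  refine h1.trans ?_
  by_cases hx : s i < w.length
  · have e1 : min (s i + 1) (w.length + 1) = s i + 1 := by omega
    have e2 : lett w (s i) = cd w[s i] + 1 := by
      unfold lett
      rw [List.getElem?_eq_getElem hx]
    rw [e1]
    have h2 : (letG α m i).Step w B
        { l := some (Sum.inl 2 : LLab α), pos := s i + 1, cnt := Function.update s i 0 }
        { l := some (Sum.inr (Fintype.equivFin α w[s i]) : LLab α), pos := s i + 1,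
          cnt := Function.update s i 0 } := by
      refine ⟨(Sum.inl 2 : LLab α), rfl, ?_, hs0⟩
      simp [letG, letIns, Ins.apply, symAt_lt w (s i) hx]
    have hlt : cd w[s i] < Fintype.card α := (Fintype.equivFin α w[s i]).isLt
    have h3 := let_inc m i w B (s i + 1) (cd w[s i]) hlt (Function.update s i 0) hs0
      (by rw [Function.update_self]; omega)
    rw [Function.update_self, Function.update_idem, zero_add, ← e2] at h3
    have h4 := let_back m i w B (Function.update s i (lett w (s i))) (upd_le hs i _ hB) (s i + 1)
      (by omega)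
    exact ((Relation.ReflTransGen.single h2).trans h3).trans h4
  · have hx' := not_lt.mp hx
    have e1 : min (s i + 1) (w.length + 1) = w.length + 1 := by omega
    have e2 : lett w (s i) = 0 := by
      unfold lett
      rw [List.getElem?_eq_none hx']
    rw [e1, e2]
    have h2 : (letG α m i).Step w B
        { l := some (Sum.inl 2 : LLab α), pos := w.length + 1, cnt := Function.update s i 0 }
        { l := some (Sum.inl 3 : LLab α), pos := w.length + 1,
          cnt := Function.update s i 0 } := by
      refine ⟨(Sum.inl 2 : LLab α), rfl, ?_, hs0⟩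
      simp [letG, letIns, Ins.apply, symAt_ge w w.length le_rfl]
    exact (Relation.ReflTransGen.single h2).trans (let_back m i w B _ hs0 _ le_rfl)

end Pool.Agent.Helper8.DC
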