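import Pool.Agent.Helper8.DC.M_FG1

set_option autoImplicit false

/-! Module FG3 of project DC: sequence and loop of flow graphs. -/

namespace Pool.Agent.Helper8.DC

open Pool.Agent.Helper73.DC Finset

variable {α : Type}

/-- change of the targets of an instruction -/
def mapI {m : ℕ} {X Y : Type} (f : X → Y) : Ins α m X → Ins α m Y
  | Ins.inc i x => Ins.inc i (f x)
  | Ins.dec i x y => Ins.dec i (f x) (f y)
  | Ins.mv d x => Ins.mv d (f x)
  | Ins.rd g => Ins.rd (fun z => f (g z))

/-- change of the label of a configuration -/
def mapC {m : ℕ} {X Y : Type} (f : X → Y) (c : CCfg m X) : CCfg m Y :=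
  { l := f c.l, pos := c.pos, cnt := c.cnt }

theorem apply_mapI {m : ℕ} {X Y Z W : Type} (w : List α) (f : X → Y) (g : Z → W) (I : Ins α m X)
    (c : CCfg m Z) : (mapI f I).apply w (mapC g c) = mapC f (I.apply w c) := by
  cases I with
  | inc i x => rfl
  | dec i x y =>
    show ({ l := if (mapC g c).cnt i = 0 then f x else f y, pos := c.pos,
            cnt := Function.update c.cnt i (c.cnt i - 1) } : CCfg m Y) =
          { l := f (if c.cnt i = 0 then x else y), pos := c.pos,
            cnt := Function.update c.cnt i (c.cnt i - 1) }
    by_cases h : c.cnt i = 0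
    · rw [if_pos h, if_pos (show (mapC g c).cnt i = 0 from h)]
    · rw [if_neg h, if_neg (show ¬ (mapC g c).cnt i = 0 from h)]
  | mv d x => rfl
  | rd h => rfl

/-- transport of runs -/
theorem lift_run {m : ℕ} (G G' : FG α m) (g : Option G.Lab → Option G'.Lab) (h : G.Lab → G'.Lab)
    (hg : ∀ l, g (some l) = some (h l)) (hi : ∀ l, G'.ins (h l) = mapI g (G.ins l)) (w : List α)
    (B : ℕ) (c d : CCfg m (Option G.Lab)) (hr : Relation.ReflTransGen (G.Step w B) c d) :
    Relation.ReflTransGen (G'.Step w B) (mapC g c) (mapC g d) := by
  have hstep : ∀ a b, G.Step w B a b → G'.Step w B (mapC g a) (mapC g b) := ?_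
  · exact Relation.ReflTransGen.lift (mapC g) hstep _ _ hr
  rintro a b ⟨l, h1, h2, h3⟩
  refine ⟨h l, ?_, ?_, ?_⟩
  · show g a.l = some (h l)
    rw [h1, hg]
  · rw [hi, apply_mapI, h2]
  · exact h3

/-- sequence -/
def seqG {m : ℕ} (G₁ G₂ : FG α m) : FG α m :=
  { Lab := G₁.Lab ⊕ G₂.Lab
    fin := by
      have := G₁.fin
      have := G₂.fin
      infer_instance
    entry := Sum.inl G₁.entry
    ins := fun l => match l with
      | Sum.inl a => mapI (fun x => match x with
        | some b => some (Sum.inl b)
        | none => some (Sum.inr G₂.entry)) (G₁.ins a)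
      | Sum.inr a => mapI (Option.map Sum.inr) (G₂.ins a) }

/-- loop -/
def loopG {m : ℕ} (G : FG α m) (i : Fin m) : FG α m :=
  { Lab := Bool ⊕ G.Lab
    fin := by
      have := G.fin
      infer_instance
    entry := Sum.inl false
    ins := fun l => match l with
      | Sum.inl false => Ins.dec i none (some (Sum.inl true))
      | Sum.inl true => Ins.inc i (some (Sum.inr G.entry))
      | Sum.inr a => mapI (fun x => match x with
        | some b => some (Sum.inr b)
        | none => some (Sum.inl false)) (G.ins a) }

theorem hFG3 : StFG3 := by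
  intro α m
  refine ⟨?_, ?_⟩
  · intro G₁ G₂
    refine ⟨seqG G₁ G₂, ?_⟩
    intro w B s t u h1 h2
    have r1 := lift_run G₁ (seqG G₁ G₂) (fun x => match x with
        | some b => some (Sum.inl b)
        | none => some (Sum.inr G₂.entry)) Sum.inl (fun _ => rfl) (fun _ => rfl) w B _ _ h1
    have r2 := lift_run G₂ (seqG G₁ G₂) (Option.map Sum.inr) Sum.inr (fun _ => rfl) (fun _ => rfl)
      w B _ _ h2
    exact r1.trans r2
  · intro G i
    refine ⟨loopG G i, ?_⟩
    intro w B s u hs hl
    induction hl with
    | done s h0 =>
      have h1 : (loopG G i).Step w B { l := some (loopG G i).entry, pos := 0, cnt := s }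
          { l := none, pos := 0, cnt := s } := by
        refine ⟨Sum.inl false, rfl, ?_, hs⟩
        have e : Function.update s i (s i - 1) = s := by
          rw [h0, Nat.zero_sub, ← h0, Function.update_eq_self]
        simp only [loopG, Ins.apply]
        rw [if_pos h0, e]
      exact Relation.ReflTransGen.single h1
    | step s t u h0 hst _ ih =>
      have hsi := hs i
      have h1 : (loopG G i).Step w B { l := some (loopG G i).entry, pos := 0, cnt := s }
          { l := some (Sum.inl true : Bool ⊕ G.Lab), pos := 0, cnt := Function.update s i (s i - 1) } := by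
        refine ⟨Sum.inl false, rfl, ?_, upd_le hs i _ (by omega)⟩
        simp only [loopG, Ins.apply]
        rw [if_neg h0]
      have h2 : (loopG G i).Step w B
          { l := some (Sum.inl true : Bool ⊕ G.Lab), pos := 0, cnt := Function.update s i (s i - 1) }
          { l := some (Sum.inr G.entry : Bool ⊕ G.Lab), pos := 0, cnt := s } := by
        refine ⟨Sum.inl true, rfl, ?_, hs⟩
        have e : Function.update (Function.update s i (s i - 1)) i
            (Function.update s i (s i - 1) i + 1) = s := by
          rw [Function.update_idem, Function.update_self]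
          have : s i - 1 + 1 = s i := by omega
          rw [this, Function.update_eq_self]
        simp only [loopG, Ins.apply]
        rw [e]
      have r1 := lift_run G (loopG G i) (fun x => match x with
        | some b => some (Sum.inr b)
        | none => some (Sum.inl false)) Sum.inr (fun _ => rfl) (fun _ => rfl) w B _ _ hst.1
      exact (((Relation.ReflTransGen.single h1).tail h2).trans r1).trans (ih hst.2)

end Pool.Agent.Helper8.DC
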