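import Pool.Agent.Helper8.DC.M_FG3

set_option autoImplicit false

/-! Module PD of project DC: from programs to counter machines. -/

namespace Pool.Agent.Helper8.DC

open Pool.Agent.Helper73.DC Finset

variable {α : Type} [Fintype α]

/-- restriction to the first `m` registers -/
def rs (m : ℕ) (s : ℕ → ℕ) : Fin m → ℕ := fun j => s j

theorem rs_update (m : ℕ) (s : ℕ → ℕ) (i : ℕ) (hi : i < m) (x : ℕ) :
    rs m (Function.update s i x) = Function.update (rs m s) ⟨i, hi⟩ x := by
  funext j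
  unfold rs
  rw [Function.update_apply, Function.update_apply]
  by_cases h : (j : ℕ) = i
  · rw [if_pos h, if_pos (Fin.ext h)]
  · rw [if_neg h, if_neg (fun h' => h (by rw [h']))]

theorem Run_loop (w : List α) (B : ℕ) (m i : ℕ) (hi : i < m) (P : Prog) (G : FG α m)
    (hG : ∀ s s' : ℕ → ℕ, Run w B P s s' → (∀ j, s j ≤ B) →
      G.Sim w B (rs m s) (rs m s') ∧ ∀ j, s' j ≤ B) (Q : Prog) (s u : ℕ → ℕ) (h : Run w B Q s u) :
    Q = Prog.loop i P → (∀ j, s j ≤ B) →
      Lp (fun a b => G.Sim w B a b ∧ ∀ j, b j ≤ B) ⟨i, hi⟩ (rs m s) (rs m u) ∧ ∀ j, u j ≤ B := by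
  induction h with
  | inc i s h => intro h; exact absurd h (by simp)
  | dec i s => intro h; exact absurd h (by simp)
  | seq P R s t u _ _ _ _ => intro h; exact absurd h (by simp)
  | loop0 i' P' s h0 =>
    intro hQ hs
    injection hQ with h1 h2
    subst h1
    exact ⟨Lp.done _ h0, hs⟩
  | loopS i' P' s t u h0 h1 h2 _ ih2 =>
    intro hQ hs
    injection hQ with e1 e2
    subst e1
    subst e2
    have g1 := hG s t h1 hs
    have g2 := ih2 rfl g1.2
    exact ⟨Lp.step _ _ _ h0 ⟨g1.1, fun j => g1.2 j⟩ g2.1, g2.2⟩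
  | letr i s h => intro h; exact absurd h (by simp)
  | len i s h => intro h; exact absurd h (by simp)

theorem prog_graph (h1 : StFG1) (h2 : StFG2) (h3 : StFG3) (m : ℕ) (P : Prog) (hP : P.regs m) :
    ∃ G : FG α m, ∀ (w : List α) (B : ℕ) (s s' : ℕ → ℕ), Run w B P s s' → (∀ j, s j ≤ B) →
      G.Sim w B (rs m s) (rs m s') ∧ ∀ j, s' j ≤ B := by
  induction P with
  | inc i =>
    have hi : i < m := hP
    obtain ⟨⟨G, hG⟩, _, _⟩ := h1 (α := α) m ⟨i, hi⟩
    refine ⟨G, ?_⟩
    intro w B s s' hr hs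
    cases hr with
    | inc _ _ h =>
      rw [rs_update m s i hi]
      exact ⟨hG w B (rs m s) (fun j => hs j) h, fun j => by
        rw [Function.update_apply]; split_ifs; exact h; exact hs j⟩
  | dec i =>
    have hi : i < m := hP
    obtain ⟨_, ⟨G, hG⟩, _⟩ := h1 (α := α) m ⟨i, hi⟩
    refine ⟨G, ?_⟩
    intro w B s s' hr hs
    cases hr with
    | dec _ _ =>
      rw [rs_update m s i hi]
      exact ⟨hG w B (rs m s) (fun j => hs j), fun j => by
        rw [Function.update_apply]; split_ifs; exact (Nat.sub_le _ _).trans (hs i); exact hs j⟩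
  | seq P R ihP ihR =>
    obtain ⟨G₁, hG₁⟩ := ihP hP.1
    obtain ⟨G₂, hG₂⟩ := ihR hP.2
    obtain ⟨G, hG⟩ := (h3 (α := α) m).1 G₁ G₂
    refine ⟨G, ?_⟩
    intro w B s s' hr hs
    cases hr with
    | seq _ _ _ t _ r1 r2 =>
      have g1 := hG₁ w B s t r1 hs
      have g2 := hG₂ w B t s' r2 g1.2
      exact ⟨hG w B _ _ _ g1.1 g2.1, g2.2⟩
  | loop i P ihP =>
    have hi : i < m := hP.1
    obtain ⟨G₁, hG₁⟩ := ihP hP.2
    obtain ⟨G, hG⟩ := (h3 (α := α) m).2 G₁ ⟨i, hi⟩
    refine ⟨G, ?_⟩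
    intro w B s s' hr hs
    have g := Run_loop w B m i hi P G₁ (hG₁ w B) (Prog.loop i P) s s' hr rfl hs
    exact ⟨hG w B _ _ (fun j => hs j) g.1, g.2⟩
  | letr i =>
    have hi : i < m := hP
    obtain ⟨G, hG⟩ := h2 (α := α) m ⟨i, hi⟩
    refine ⟨G, ?_⟩
    intro w B s s' hr hs
    cases hr with
    | letr _ _ h =>
      rw [rs_update m s i hi]
      exact ⟨hG w B (rs m s) (fun j => hs j) h, fun j => by
        rw [Function.update_apply]; split_ifs; exact h; exact hs j⟩
  | len i =>
    have hi : i < m := hP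
    obtain ⟨_, _, ⟨G, hG⟩⟩ := h1 (α := α) m ⟨i, hi⟩
    refine ⟨G, ?_⟩
    intro w B s s' hr hs
    cases hr with
    | len _ _ h =>
      rw [rs_update m s i hi]
      exact ⟨hG w B (rs m s) (fun j => hs j) h, fun j => by
        rw [Function.update_apply]; split_ifs; exact h; exact hs j⟩

theorem regs_mono (P : Prog) {m n : ℕ} (h : m ≤ n) (hP : P.regs m) : P.regs n := by
  induction P with
  | inc i => exact lt_of_lt_of_le hP h
  | dec i => exact lt_of_lt_of_le hP h
  | seq P R ihP ihR => exact ⟨ihP hP.1, ihR hP.2⟩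
  | loop i P ihP => exact ⟨lt_of_lt_of_le hP.1 h, ihP hP.2⟩
  | letr i => exact lt_of_lt_of_le hP h
  | len i => exact lt_of_lt_of_le hP h

theorem regs_ex (P : Prog) : ∃ m, 1 ≤ m ∧ P.regs m := by
  induction P with
  | inc i => exact ⟨i + 1, by omega, Nat.lt_succ_self i⟩
  | dec i => exact ⟨i + 1, by omega, Nat.lt_succ_self i⟩
  | seq P R ihP ihR =>
    obtain ⟨a, ha, hPa⟩ := ihP
    obtain ⟨b, hb, hRb⟩ := ihR
    exact ⟨max a b, by omega, regs_mono P (le_max_left _ _) hPa, regs_mono R (le_max_right _ _) hRb⟩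
  | loop i P ihP =>
    obtain ⟨a, ha, hPa⟩ := ihP
    exact ⟨max a (i + 1), by omega, lt_of_lt_of_le (Nat.lt_succ_self i) (le_max_right _ _),
      regs_mono P (le_max_left _ _) hPa⟩
  | letr i => exact ⟨i + 1, by omega, Nat.lt_succ_self i⟩
  | len i => exact ⟨i + 1, by omega, Nat.lt_succ_self i⟩

/-- the counter machine of a flow graph: at the exit test counter `z` -/
def mach {m : ℕ} (G : FG α m) (z : Fin m) : CM α where
  m := m
  Lab := Option G.Lab ⊕ Bool
  fin := by
    have := G.fin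
    infer_instance
  l0 := Sum.inl (some G.entry)
  acc := fun l => l = Sum.inr true
  ins := fun l => match l with
    | Sum.inl (some a) => some (mapI Sum.inl (G.ins a))
    | Sum.inl none => some (Ins.dec z (Sum.inr false) (Sum.inr true))
    | Sum.inr _ => none

/-- all configurations reachable in a deterministic system with a halting run lie on the run -/
theorem reach_on_run {X : Type} (f : X → Option X) (P : X → Prop) (a b : X) (hP : P a)
    (hr : Relation.ReflTransGen (fun x y => f x = some y ∧ P y) a b) (hb : f b = none) (c : X)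
    (hc : Relation.ReflTransGen (fun x y => f x = some y) a c) : P c := by
  have key : ∀ c, Relation.ReflTransGen (fun x y => f x = some y) a c →
      P c ∧ Relation.ReflTransGen (fun x y => f x = some y ∧ P y) c b := by
    intro c hc
    induction hc with
    | refl => exact ⟨hP, hr⟩
    | tail h1 h2 ih =>
      rename_i x y
      rcases Relation.ReflTransGen.cases_head ih.2 with h3 | ⟨z, h3, h4⟩
      · exfalso
        rw [h3, hb] at h2
        exact absurd h2 (by simp)
      · rw [h2] at h3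
        have h5 := h3.1
        injection h5 with h5
        subst h5
        exact ⟨h3.2, h4⟩
  exact (key c hc).1

theorem hPD (h1 : StFG1) (h2 : StFG2) (h3 : StFG3) : StPD := by
  intro α _ P L B hL
  obtain ⟨m, hm, hP⟩ := regs_ex P
  obtain ⟨G, hG⟩ := prog_graph (α := α) h1 h2 h3 m P hP
  refine ⟨mach G ⟨0, hm⟩, ?_⟩
  intro w
  obtain ⟨s', hr, hacc⟩ := hL w
  obtain ⟨g1, g2⟩ := hG w (B w.length) _ _ hr (fun _ => Nat.zero_le _)
  set M := mach G ⟨0, hm⟩ with hM
  -- the run of the graph inside the machine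
  have r1 : Relation.ReflTransGen
      (fun x y => M.step w x = some y ∧ ∀ i, y.cnt i ≤ B w.length)
      (mapC Sum.inl { l := some G.entry, pos := 0, cnt := rs m (fun _ => 0) } : CCfg M.m M.Lab)
      (mapC Sum.inl { l := none, pos := 0, cnt := rs m s' }) := by
    have hstep : ∀ a b, G.Step w (B w.length) a b →
        (M.step w (mapC Sum.inl a : CCfg M.m M.Lab) = some (mapC Sum.inl b) ∧
          ∀ i, (mapC Sum.inl b : CCfg M.m M.Lab).cnt i ≤ B w.length) := by
      rintro ⟨la, pa, ca⟩ b ⟨l, e1, e2, e3⟩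
      have e1' : la = some l := e1
      subst e1'
      refine ⟨?_, e3⟩
      rw [e2, ← apply_mapI w Sum.inl (Sum.inl : Option G.Lab → Option G.Lab ⊕ Bool)]
      rfl
    exact Relation.ReflTransGen.lift (p := fun x y => M.step w x = some y ∧ ∀ i, y.cnt i ≤ B w.length)
      (mapC Sum.inl) hstep _ _ g1
  have hinit : (mapC Sum.inl { l := some G.entry, pos := 0, cnt := rs m (fun _ => 0) } :
      CCfg M.m M.Lab) = M.init := rfl
  rw [hinit] at r1
  -- the final test
  set fin : CCfg M.m M.Lab := CCfg.mk (if s' 0 = 0 then Sum.inr false else Sum.inr true) 0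
    (Function.update (rs m s') ⟨0, hm⟩ (s' 0 - 1)) with hfin
  have hlast : M.step w (mapC Sum.inl { l := none, pos := 0, cnt := rs m s' }) = some fin ∧
      ∀ i, fin.cnt i ≤ B w.length := by
    refine ⟨rfl, ?_⟩
    exact upd_le (fun j => g2 j) ⟨0, hm⟩ _ ((Nat.sub_le _ _).trans (g2 0))
  have r2 := r1.tail hlast
  have hlab : fin.l = (Sum.inr (decide (s' 0 ≠ 0)) : Option G.Lab ⊕ Bool) := by
    show (if s' 0 = 0 then (Sum.inr false : Option G.Lab ⊕ Bool) else Sum.inr true) = _
    by_cases h0 : s' 0 = 0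
    · rw [if_pos h0]; simp [h0]
    · rw [if_neg h0]; simp [h0]
  have hhalt : M.step w fin = none := by
    show Option.map _ (M.ins fin.l) = none
    rw [hlab]
    rfl
  refine ⟨⟨fin, ?_, hhalt, ?_⟩, ?_⟩
  · exact Relation.ReflTransGen.mono (fun x y h => h.1) _ _ r2
  · rw [← hacc]
    have e : ((Sum.inr (decide (s' 0 ≠ 0)) : Option G.Lab ⊕ Bool) = Sum.inr true) ↔ s' 0 ≠ 0 := by
      rw [Sum.inr.injEq, decide_eq_true_eq]
    show fin.l = (Sum.inr true : Option G.Lab ⊕ Bool) ↔ _
    rw [hlab]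
    exact e
  · intro c hc
    exact reach_on_run (fun x => M.step w x) (fun c => ∀ i, c.cnt i ≤ B w.length) M.init fin
      (fun _ => Nat.zero_le _) r2 hhalt c hc

end Pool.Agent.Helper8.DC
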