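import Pool.Agent.Helper73.DC.St1

set_option autoImplicit false

/-! Module TI of project DC: binary increment of the simulating Turing machine. -/

namespace Pool.Agent.Helper8.DC

open Pool.Agent.Helper73.DC Finset

variable {α : Type}

theorem upd_both (m : ℕ) (T : Fin m → ℕ → Option Bool) (i : Fin m) (h : ℕ) (τ : ℕ → Option Bool) :
    Function.update T i τ i (Function.update (fun _ => 0) i h i) = τ h := by
  simp

theorem upd_lt (m : ℕ) (i : Fin m) (h b : ℕ) (hb : h < b) (t : Fin m) :
    Function.update (fun _ => 0) i h t < b := by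
  rw [Function.update_apply]
  split_ifs
  · exact hb
  · exact lt_of_le_of_lt (Nat.zero_le _) hb

theorem upd_zero (m : ℕ) (i t : Fin m) : Function.update (fun _ => 0) i 0 t = 0 := by
  rw [Function.update_apply]
  split_ifs <;> rfl

theorem upd_ne (m : ℕ) (T : Fin m → ℕ → Option Bool) (i : Fin m) (τ : ℕ → Option Bool) (t : Fin m)
    (ht : t ≠ i) : Function.update T i τ t = T t := Function.update_of_ne ht _ _

theorem upd_self (m : ℕ) (T : Fin m → ℕ → Option Bool) (i : Fin m) (τ : ℕ → Option Bool) :
    Function.update T i τ i = τ := Function.update_self _ _ _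

theorem cfg_ext (M : CM α) (q q' : M.Lab × Ph) (p p' : ℕ) (hd hd' : Fin M.m → ℕ)
    (tp tp' : Fin M.m → ℕ → Option Bool) (h1 : q = q') (h2 : p = p') (h3 : hd = hd')
    (h4 : tp = tp') : (OTM.Cfg.mk q p hd tp : (tmOf M).Cfg) = OTM.Cfg.mk q' p' hd' tp' := by
  subst h1
  subst h2
  subst h3
  subst h4
  rfl

/-- configurations whose heads are on cell 0 except the head of tape `i` -/
noncomputable def cfg (M : CM α) (q : M.Lab × Ph) (p : ℕ) (T : Fin M.m → ℕ → Option Bool) (i : Fin M.m) (h : ℕ)
    (τ : ℕ → Option Bool) : (tmOf M).Cfg :=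
  { q := q
    pos := p
    hd := Function.update (fun _ => 0) i h
    tp := Function.update T i τ }

theorem step_cfg (M : CM α) (w : List α) (q q' : M.Lab × Ph) (p : ℕ)
    (T : Fin M.m → ℕ → Option Bool) (i : Fin M.m) (h : ℕ) (τ : ℕ → Option Bool) (g : Option Bool)
    (d : Mv)
    (hδ : ∀ y : Fin M.m → Option Bool, y i = τ h →
      (tmOf M).δ q (symAt w p) y = some (q', Mv.S, act1 i y g d)) :
    (tmOf M).step w (cfg M q p T i h τ) =
      some (cfg M q' (min p (w.length + 1)) T i (mvN d h) (Function.update τ h g)) := by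
  unfold OTM.step
  have hy : (fun t => (cfg M q p T i h τ).tp t ((cfg M q p T i h τ).hd t)) i = τ h :=
    upd_both M.m T i h τ
  have h1 := hδ (fun t => (cfg M q p T i h τ).tp t ((cfg M q p T i h τ).hd t)) hy
  have h2 : (tmOf M).δ (cfg M q p T i h τ).q (symAt w (cfg M q p T i h τ).pos)
      (fun t => (cfg M q p T i h τ).tp t ((cfg M q p T i h τ).hd t)) = _ := h1
  rw [h2]
  simp only [cfg]
  congr 1
  have e1 : (fun t => mvN (act1 i (fun t => Function.update T i τ t
      (Function.update (fun _ => 0) i h t)) g d t).2 (Function.update (fun _ => 0) i h t)) =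
      Function.update (fun _ => 0) i (mvN d h) := by
    funext t
    by_cases ht : t = i
    · subst ht
      simp [act1]
    · simp [act1, ht, mvN]
  have e2 : (fun t => Function.update (Function.update T i τ t)
      (Function.update (fun _ => 0) i h t) (act1 i (fun t => Function.update T i τ t
      (Function.update (fun _ => 0) i h t)) g d t).1) =
      Function.update T i (Function.update τ h g) := by
    funext t
    by_cases ht : t = i
    · subst ht
      simp [act1]
    · simp [act1, ht]
  show OTM.Cfg.mk _ _ _ _ = OTM.Cfg.mk _ _ _ _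
  congr 1

theorem cfg_hd (M : CM α) (q : M.Lab × Ph) (p : ℕ) (T : Fin M.m → ℕ → Option Bool) (i : Fin M.m)
    (h b : ℕ) (τ : ℕ → Option Bool) (hb : h < b) : ∀ t, (cfg M q p T i h τ).hd t < b := by
  intro t
  exact upd_lt M.m i h b hb t

theorem cfg_eta (M : CM α) (c : (tmOf M).Cfg) (q : M.Lab × Ph) (hq : c.q = q) (i : Fin M.m)
    (hhd : ∀ t, c.hd t = 0) (τ : ℕ → Option Bool) (hτ : c.tp i = τ) :
    c = cfg M q c.pos c.tp i 0 τ := by
  rcases c with ⟨q', pos, hd, tp⟩
  refine cfg_ext M _ _ _ _ _ _ _ _ hq rfl ?_ ?_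
  · funext t
    exact (hhd t).trans (upd_zero M.m i t).symm
  · subst hτ
    exact (Function.update_eq_self (α := Fin M.m) i tp).symm

/-- the walk back to cell 0 -/
theorem walk_back (M : CM α) (w : List α) (q q' : M.Lab × Ph) (p : ℕ) (hp : p ≤ w.length + 1)
    (T : Fin M.m → ℕ → Option Bool) (i : Fin M.m) (τ : ℕ → Option Bool) (b : ℕ) (hτ0 : τ 0 = none)
    (hδ1 : ∀ (x : Sym α) (y : Fin M.m → Option Bool), y i = none →
      (tmOf M).δ q x y = some (q', Mv.S, act1 i y none Mv.S))
    (hδ2 : ∀ (x : Sym α) (y : Fin M.m → Option Bool), y i ≠ none →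
      (tmOf M).δ q x y = some (q, Mv.S, act1 i y (y i) Mv.L)) (h : ℕ) :
    h < b → (∀ n, 1 ≤ n → n ≤ h → τ n ≠ none) →
    (tmOf M).RB w b (cfg M q p T i h τ) (cfg M q' p T i 0 τ) := by
  have hmin : min p (w.length + 1) = p := by omega
  induction h with
  | zero =>
    intro hb _
    have h1 := step_cfg M w q q' p T i 0 τ none Mv.S (fun y hy => hδ1 _ y (by rw [hy, hτ0]))
    rw [hmin] at h1
    have e : Function.update τ 0 none = τ := by rw [← hτ0, Function.update_eq_self]
    rw [e] at h1
    exact Relation.ReflTransGen.single ⟨h1, cfg_hd M q' p T i 0 b τ hb⟩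
  | succ h ih =>
    intro hb hn
    have h1 := step_cfg M w q q p T i (h + 1) τ (τ (h + 1)) Mv.L (fun y hy => by
      rw [← hy]
      exact hδ2 _ y (by rw [hy]; exact hn (h + 1) (by omega) le_rfl))
    rw [hmin, Function.update_eq_self] at h1
    have h2 := ih (by omega) (fun n hn1 hn2 => hn n hn1 (by omega))
    exact Relation.ReflTransGen.head ⟨h1, cfg_hd M q p T i h b τ (by omega)⟩ h2

/-- a tape with `l` digits -/
def tape (l : ℕ) (b : ℕ → Bool) : ℕ → Option Bool :=
  fun j => if 1 ≤ j ∧ j ≤ l then some (b (j - 1)) else none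

theorem sum_pow (n : ℕ) : (∑ j ∈ range n, 2 ^ j) + 1 = 2 ^ n := by
  induction n with
  | zero => simp
  | succ n ih => rw [sum_range_succ, pow_succ]; omega

theorem hTI : StTI := by
  intro α M w lab l' i ll v c hins hq hhd hrep
  obtain ⟨b, hb, hv⟩ := hrep
  have hτ : c.tp i = tape ll b := funext hb
  -- the transition function
  have δst : ∀ (x : Sym α) (y : Fin M.m → Option Bool),
      (tmOf M).δ (lab, Ph.st) x y = some ((lab, Ph.car), Mv.S, act1 i y (y i) Mv.R) := by
    intro x y
    simp [tmOf, hins]
  have δcar1 : ∀ (x : Sym α) (y : Fin M.m → Option Bool), y i = some true →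
      (tmOf M).δ (lab, Ph.car) x y = some ((lab, Ph.car), Mv.S, act1 i y (some false) Mv.R) := by
    intro x y hy
    simp [tmOf, hins, hy]
  have δcar2 : ∀ (x : Sym α) (y : Fin M.m → Option Bool), y i ≠ some true →
      (tmOf M).δ (lab, Ph.car) x y = some ((lab, Ph.ret), Mv.S, act1 i y (some true) Mv.L) := by
    intro x y hy
    simp [tmOf, hins, hy]
  have δret1 : ∀ (x : Sym α) (y : Fin M.m → Option Bool), y i = none →
      (tmOf M).δ (lab, Ph.ret) x y = some ((l', Ph.st), Mv.S, act1 i y none Mv.S) := by
    intro x y hy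
    simp [tmOf, hins, hy]
  have δret2 : ∀ (x : Sym α) (y : Fin M.m → Option Bool), y i ≠ none →
      (tmOf M).δ (lab, Ph.ret) x y = some ((lab, Ph.ret), Mv.S, act1 i y (y i) Mv.L) := by
    intro x y hy
    simp [tmOf, hins, hy]
  -- the first false digit
  obtain ⟨j0, hj0, hlow, hcase⟩ : ∃ j0, j0 ≤ ll ∧ (∀ j < j0, b j = true) ∧
      (j0 = ll ∨ (j0 < ll ∧ b j0 = false)) := by
    by_cases hex : ∃ j, j < ll ∧ b j = false
    · classical
      refine ⟨Nat.find hex, (Nat.find_spec hex).1.le, ?_, Or.inr (Nat.find_spec hex)⟩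
      intro j hj
      have h1 := Nat.find_min hex hj
      have h2 : j < ll := lt_trans hj (Nat.find_spec hex).1
      by_contra h3
      exact h1 ⟨h2, by simpa using h3⟩
    · refine ⟨ll, le_rfl, ?_, Or.inl rfl⟩
      intro j hj
      by_contra h3
      exact hex ⟨j, hj, by simpa using h3⟩
  set p := min c.pos (w.length + 1) with hp
  have hple : p ≤ w.length + 1 := min_le_right _ _
  have hpmin : min p (w.length + 1) = p := by omega
  -- intermediate tapes
  set τ : ℕ → ℕ → Option Bool := fun j => tape ll (fun n => if n < j then false else b n) with hτdef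
  have hτ0 : τ 0 = tape ll b := by
    simp [hτdef]
  have hc : c = cfg M (lab, Ph.st) c.pos c.tp i 0 (τ 0) :=
    cfg_eta M c (lab, Ph.st) hq i hhd (τ 0) (hτ.trans hτ0.symm)
  -- first step
  have s1 : (tmOf M).step w c = some (cfg M (lab, Ph.car) p c.tp i 1 (τ 0)) := by
    have h1 := step_cfg M w (lab, Ph.st) (lab, Ph.car) c.pos c.tp i 0 (τ 0) (τ 0 0) Mv.R
      (fun y hy => by rw [← hy]; exact δst _ y)
    rw [Function.update_eq_self, ← hc] at h1
    exact h1
  -- carry phase
  have r2 : ∀ j, j ≤ j0 → (tmOf M).RB w (ll + 2) (cfg M (lab, Ph.car) p c.tp i 1 (τ 0))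
      (cfg M (lab, Ph.car) p c.tp i (j + 1) (τ j)) := by
    intro j
    induction j with
    | zero => intro _; exact Relation.ReflTransGen.refl
    | succ j ih =>
      intro hj
      have hbj : b j = true := hlow j (by omega)
      have hcell : τ j (j + 1) = some true := by
        simp only [hτdef, tape]
        rw [if_pos ⟨by omega, by omega⟩, Nat.add_sub_cancel, if_neg (lt_irrefl j), hbj]
      have h1 := step_cfg M w (lab, Ph.car) (lab, Ph.car) p c.tp i (j + 1) (τ j) (some false) Mv.R
        (fun y hy => δcar1 _ y (by rw [hy, hcell]))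
      have e : Function.update (τ j) (j + 1) (some false) = τ (j + 1) := by
        funext n
        rw [Function.update_apply]
        simp only [hτdef, tape]
        by_cases hn : n = j + 1
        · subst hn
          rw [if_pos rfl, if_pos ⟨by omega, by omega⟩, Nat.add_sub_cancel, if_pos (by omega)]
        · rw [if_neg hn]
          by_cases hn2 : 1 ≤ n ∧ n ≤ ll
          · rw [if_pos hn2, if_pos hn2]
            by_cases hn3 : n - 1 < j
            · rw [if_pos hn3, if_pos (by omega)]
            · rw [if_neg hn3, if_neg (by omega)]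
          · rw [if_neg hn2, if_neg hn2]
      rw [hpmin, e] at h1
      exact (ih (by omega)).tail ⟨h1, cfg_hd M _ p c.tp i _ _ _ (by show j + 1 + 1 < ll + 2; omega)⟩
  -- writing the new one
  set τ' := Function.update (τ j0) (j0 + 1) (some true) with hτ'
  have hcell0 : τ j0 (j0 + 1) ≠ some true := by
    simp only [hτdef, tape]
    rcases hcase with h | h
    · rw [if_neg (by omega)]; simp
    · rw [if_pos ⟨by omega, by omega⟩, Nat.add_sub_cancel, if_neg (lt_irrefl j0), h.2]; simp
  have s3 : (tmOf M).step w (cfg M (lab, Ph.car) p c.tp i (j0 + 1) (τ j0)) =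
      some (cfg M (lab, Ph.ret) p c.tp i j0 τ') := by
    have h1 := step_cfg M w (lab, Ph.car) (lab, Ph.ret) p c.tp i (j0 + 1) (τ j0) (some true) Mv.L
      (fun y hy => δcar2 _ y (by rw [hy]; exact hcell0))
    rw [hpmin] at h1
    exact h1
  -- back
  have r4 := walk_back M w (lab, Ph.ret) (l', Ph.st) p hple c.tp i τ' (ll + 2)
    (by rw [hτ', Function.update_of_ne (by omega)]; simp [hτdef, tape]) δret1 δret2 j0 (by omega)
    (by
      intro n hn1 hn2
      rw [hτ', Function.update_of_ne (by omega)]
      simp only [hτdef, tape]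
      rw [if_pos ⟨hn1, by omega⟩]
      simp)
  have hrun : (tmOf M).RB w (ll + 2) c (cfg M (l', Ph.st) p c.tp i 0 τ') := by
    refine Relation.ReflTransGen.head ⟨s1, cfg_hd M _ p c.tp i 1 _ _ (by omega)⟩ ?_
    refine (r2 j0 le_rfl).trans ?_
    exact Relation.ReflTransGen.head ⟨s3, cfg_hd M _ p c.tp i j0 _ _ (by omega)⟩ r4
  -- the new digits
  set b' : ℕ → Bool := fun n => if n < j0 then false else if n = j0 then true else b n with hb'
  set ll' := max ll (j0 + 1) with hll'
  have htape : τ' = tape ll' b' := by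
    funext n
    rw [hτ', Function.update_apply]
    simp only [hτdef, tape, hb', hll']
    by_cases hn : n = j0 + 1
    · subst hn
      rw [if_pos rfl, if_pos ⟨by omega, by omega⟩, Nat.add_sub_cancel, if_neg (lt_irrefl j0),
        if_pos rfl]
    · rw [if_neg hn]
      by_cases hn2 : 1 ≤ n ∧ n ≤ ll
      · rw [if_pos hn2, if_pos (show 1 ≤ n ∧ n ≤ max ll (j0 + 1) from ⟨hn2.1, by omega⟩)]
        by_cases hn3 : n - 1 < j0
        · rw [if_pos hn3, if_pos hn3]
        · rw [if_neg hn3, if_neg hn3, if_neg (by omega)]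
      · rw [if_neg hn2, if_neg (by omega)]
  have hsumlow : ∀ n, n ≤ j0 → (∑ j ∈ range n, if b j = true then 2 ^ j else 0) + 1 = 2 ^ n := by
    intro n hn
    rw [← sum_pow n]
    congr 1
    refine Finset.sum_congr rfl fun j hj => ?_
    rw [if_pos (hlow j (by have := mem_range.mp hj; omega))]
  have hsumlow' : ∀ n, n ≤ j0 → (∑ j ∈ range n, if b' j = true then 2 ^ j else 0) = 0 := by
    intro n hn
    apply Finset.sum_eq_zero
    intro j hj
    have : j < j0 := by have := mem_range.mp hj; omega
    simp [hb', this]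
  have hval : v + 1 = ∑ j ∈ range ll', if b' j = true then 2 ^ j else 0 := by
    rcases hcase with h | h
    · have e : ll' = ll + 1 := by omega
      rw [e, sum_range_succ, hsumlow' ll h.ge]
      have hb0 : b' ll = true := by simp [hb', h]
      rw [if_pos hb0, hv, hsumlow ll h.ge, zero_add]
    · have e : ll' = ll := by omega
      rw [e, hv]
      have key : ∀ n, j0 + 1 ≤ n → (∑ j ∈ range n, if b j = true then 2 ^ j else 0) + 1 =
          ∑ j ∈ range n, if b' j = true then 2 ^ j else 0 := by
        intro n hn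
        induction n, hn using Nat.le_induction with
        | base =>
          rw [sum_range_succ, sum_range_succ, hsumlow' j0 le_rfl]
          have hb0 : b' j0 = true := by simp [hb']
          rw [if_pos hb0, h.2, if_neg (by simp), add_zero, hsumlow j0 le_rfl, zero_add]
        | succ n hn ih =>
          rw [sum_range_succ, sum_range_succ, ← ih]
          have hbn : b' n = b n := by
            simp only [hb']
            rw [if_neg (by omega), if_neg (by omega)]
          rw [hbn]
          omega
      exact key ll (by omega)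
  refine ⟨cfg M (l', Ph.st) p c.tp i 0 τ', ll', hrun, rfl, rfl, ?_, ?_, ?_, ?_⟩
  · intro t
    exact upd_zero M.m i t
  · intro t ht
    exact upd_ne M.m c.tp i τ' t ht
  · refine ⟨b', ?_, hval⟩
    intro j
    have e1 : (cfg M (l', Ph.st) p c.tp i 0 τ').tp i = τ' := upd_self M.m c.tp i τ'
    rw [e1, htape]
    rfl
  · rcases hcase with h | h
    · right
      refine ⟨by omega, ?_⟩
      rw [hv, hsumlow ll h.ge]
    · left; omega

end Pool.Agent.Helper8.DC
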